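import Mathlib

set_option autoImplicit false

open Set Metric Filter Topology
open scoped symmDiff ENNReal

namespace Pool.Agent.Results.MP_1d6438_gt.Counter

/-- The Gromov-Hausdorff distance of arbitrary metric spaces: the infimum of the Hausdorff
distances of isometric copies in a common metric space. -/
noncomputable def dGH (X Y : Type) [MetricSpace X] [MetricSpace Y] : ℝ≥0∞ :=
  ⨅ (Z : Type) (_ : MetricSpace Z) (φ : X → Z) (ψ : Y → Z) (_ : Isometry φ) (_ : Isometry ψ),
    hausdorffEDist (range φ) (range ψ)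

/-- The distance set of `X`. -/
def distSet (X : Type) [MetricSpace X] : Set ℝ := {r | ∃ x y : X, dist x y = r}

def k (S T : Finset ℕ) : ℕ := (S ∆ T).sup Nat.succ

noncomputable def g (w : Bool) (S : Finset ℕ) (n : ℕ) : ℝ :=
  if n = 0 then 0 else n + if decide (n ∈ S) = w then 0 else 1 / ((n : ℝ) + 1)

lemma k_comm (S T : Finset ℕ) : k S T = k T S := by rw [k, symmDiff_comm, k]

lemma k_mem {S T : Finset ℕ} {n : ℕ} (h : k S T ≤ n) : n ∈ S ↔ n ∈ T := by
  by_contra e
  have : n ∈ S ∆ T := by rw [Finset.mem_symmDiff]; tauto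
  have := Finset.le_sup (f := Nat.succ) this
  unfold k at h; omega

lemma g_bd (w : Bool) (S : Finset ℕ) (n : ℕ) : n ≤ g w S n ∧ g w S n ≤ n + 1 / ((n : ℝ) + 1) := by
  have : 0 < 1 / ((n : ℝ) + 1) := by positivity
  unfold g; split_ifs with h <;> constructor <;> first | linarith | simp [h]

lemma g_mono (w : Bool) (S : Finset ℕ) : Monotone (g w S) := monotone_nat_of_le_succ fun n => by
  have := (g_bd w S n).2
  have := (g_bd w S (n + 1)).1
  have : 1 / ((n : ℝ) + 1) ≤ 1 := by rw [div_le_one (by positivity)]; simp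
  push_cast at *; linarith

lemma g_comm (w : Bool) (S T : Finset ℕ) : g w S (k S T) = g w T (k T S) := by
  simp only [g, k_comm T S, k_mem (le_refl (k S T))]

def X (_w : Bool) : Type := Finset ℕ

noncomputable instance (w : Bool) : MetricSpace (X w) where
  dist S T := g w S (k S T)
  dist_self S := by simp [k, g]
  dist_comm := g_comm w
  dist_triangle S T U := by
    have n0 : ∀ S n, 0 ≤ g w S n := fun S n => (Nat.cast_nonneg n).trans (g_bd w S n).1
    have : k S U ≤ k S T ∨ k S U ≤ k T U := le_sup_iff.1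
      ((Finset.sup_mono (symmDiff_triangle (α := Finset ℕ) S T U)).trans Finset.sup_union.le)
    rcases this with h | h
    · linarith [g_mono w S h, n0 T (k T U)]
    · rw [g_comm w S U, g_comm w T U]
      rw [k_comm S U, k_comm T U] at h
      linarith [g_mono w U h, n0 S (k S T)]
  eq_of_dist_eq_zero {S T} h := by
    have : k S T = 0 := by exact_mod_cast le_antisymm ((g_bd w S _).1.trans h.le) (Nat.cast_nonneg _)
    exact Finset.ext fun n => k_mem (by omega)

lemma dist_eq {w : Bool} (S T : X w) : dist S T = g w S (k S T) := rfl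

theorem result :
    ∃ (X Y : Type) (_ : MetricSpace X) (_ : MetricSpace Y), Nonempty X ∧ Nonempty Y ∧
      IsClosed (distSet X) ∧ IsDiscrete (distSet X) ∧ dGH X Y = 0 ∧ IsEmpty (X ≃ᵢ Y) := by
  have ne : ∀ w, Nonempty (X w) := fun _ => ⟨(∅ : Finset ℕ)⟩
  refine ⟨X false, X true, inferInstance, inferInstance, ne _, ne _, ?_⟩
  rw [← and_assoc]
  refine ⟨isClosed_and_discrete_iff.2 fun x => ?_, ?_, ⟨fun e => ?_⟩⟩
  · have fin : (distSet (X false) ∩ Iio (x + 1)).Finite := by
      refine (((finite_Iic ⌈x + 1⌉₊).image fun n : ℕ => (n : ℝ)).union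
        ((finite_Iic ⌈x + 1⌉₊).image fun n : ℕ => n + 1 / ((n : ℝ) + 1))).subset ?_
      rintro _ ⟨⟨S, T, rfl⟩, h⟩
      have a : k S T ∈ Iic ⌈x + 1⌉₊ := by
        have := ((g_bd false S (k S T)).1.trans (le_of_lt h)).trans (Nat.le_ceil _)
        exact_mod_cast this
      rw [dist_eq, g]
      split_ifs with h
      exacts [.inl ⟨_, a, by simp [h]⟩, .inl ⟨_, a, by simp⟩, .inr ⟨_, a, rfl⟩]
    have := isClosed_and_discrete_iff.1 ⟨fin.isClosed, fin.isDiscrete⟩ x
    rw [disjoint_principal_right] at this ⊢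
    filter_upwards [this, nhdsWithin_le_nhds (Iio_mem_nhds (lt_add_one x))] with y h1 h2 h3
    exact h1 ⟨h3, h2⟩
  · refine le_antisymm (ENNReal.le_of_forall_pos_le_add fun ε ε0 _ => ?_) zero_le
    obtain ⟨N, hN⟩ := exists_nat_one_div_lt (show (0 : ℝ) < ε from ε0)
    let f : X false → X true := fun S => (S ∆ Finset.range N : Finset ℕ)
    have H : ∀ p q : X false, |dist (id p) (id q) - dist (f p) (f q)| ≤ 2 * ε := fun S T => by
      have e : k (f S) (f T) = k S T := by
        simp only [k, f]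
        rw [symmDiff_symmDiff_symmDiff_comm (α := Finset ℕ), symmDiff_self, symmDiff_bot]
      rw [id, id, dist_eq, dist_eq, e]
      rcases lt_or_ge (k S T) N with h | h
      · have : decide (k S T ∈ (show Finset ℕ from f S)) = true ↔
            decide (k S T ∈ (show Finset ℕ from S)) = false := by
          simp [f, Finset.mem_symmDiff, h]
        simp only [g, this, sub_self, abs_zero]; positivity
      · have a := g_bd false S (k S T)
        have b := g_bd true (f S) (k S T)
        have : 1 / ((k S T : ℝ) + 1) ≤ 1 / ((N : ℝ) + 1) := by gcongr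
        have : (0 : ℝ) < ε := ε0
        rw [abs_le]; constructor <;> linarith [a.1, a.2, b.1, b.2]
    have := ne false
    let _ := glueMetricApprox id f ε ε0 H
    refine (iInf_le_of_le (X false ⊕ X true) (iInf_le_of_le inferInstance (iInf_le_of_le Sum.inl
      (iInf_le_of_le Sum.inr (iInf_le_of_le (Isometry.of_dist_eq fun _ _ => rfl)
        (iInf_le_of_le (Isometry.of_dist_eq fun _ _ => rfl) ?_))))))
    have e : ∀ S, edist (Sum.inl S : X false ⊕ X true) (Sum.inr (f S)) ≤ 0 + ε := fun S => by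
      rw [edist_dist, zero_add]
      exact (congrArg ENNReal.ofReal (glueDist_glued_points id f ε S)).trans_le (by simp)
    refine hausdorffEDist_le_of_mem_edist ?_ ?_
    · rintro _ ⟨S, rfl⟩; exact ⟨_, ⟨_, rfl⟩, e S⟩
    · rintro _ ⟨S, rfl⟩
      obtain ⟨T, rfl⟩ : ∃ T, f T = S := 
        ⟨((show Finset ℕ from S) ∆ Finset.range N : Finset ℕ),
          symmDiff_symmDiff_cancel_right (α := Finset ℕ) _ _⟩
      exact ⟨_, ⟨T, rfl⟩, by rw [edist_comm]; exact e T⟩
  · obtain ⟨S, hS⟩ : ∃ S : Finset ℕ, e (∅ : Finset ℕ) = S := ⟨_, rfl⟩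
    obtain ⟨n, hn⟩ : ∃ n : ℕ, ∀ m ∈ S, m < n := ⟨S.sup Nat.succ, fun m h => Finset.le_sup (f := Nat.succ) h⟩
    obtain ⟨T, hT⟩ := e.surjective (insert (n + 1) S : Finset ℕ)
    have h := e.dist_eq (∅ : Finset ℕ) T
    have e1 : k S (insert (n + 1) S) = n + 2 := by
      have : n + 1 ∉ S := fun h => by have := hn _ h; omega
      rw [k, show S ∆ insert (n + 1) S = {n + 1} by
        ext; simp only [Finset.mem_symmDiff, Finset.mem_insert, Finset.mem_singleton]; grind]
      simp
    have e2 : n + 2 ∉ S := fun h => by have := hn _ h; omega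
    rw [hS, hT, dist_eq, dist_eq, e1] at h
    generalize k ∅ T = j at h
    have h2 : ((n + 2 : ℕ) : ℝ) + 1 / (((n + 2 : ℕ) : ℝ) + 1) = j := by
      simpa [g, e2, eq_comm (a := (0 : ℝ)), ite_eq_right_iff, show (if j = 0 then 0 else (j : ℝ)) = j by
        split_ifs with h <;> simp [h]] using h
    have p : 0 < 1 / (((n + 2 : ℕ) : ℝ) + 1) := by positivity
    have q : 1 / (((n + 2 : ℕ) : ℝ) + 1) < 1 := by rw [div_lt_one (by positivity)]; simp; positivity
    have a : n + 2 < j := by exact_mod_cast (show ((n + 2 : ℕ) : ℝ) < j by linarith)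
    have b : j < n + 2 + 1 := by exact_mod_cast (show (j : ℝ) < (n + 2 : ℕ) + 1 by linarith)
    omega

end Pool.Agent.Results.MP_1d6438_gt.Counter
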